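import Pool.Agent.H5.OR.Targets

set_option autoImplicit false

open scoped Classical

namespace Pool.Agent.H38.OR

open ORg

/-- the coercion of a finite set of natural numbers to integers -/
theorem bind_cast (s : Finset ℕ) :
    ((do let a ← s; pure (a : ℤ)) : Finset ℤ) = s.image (fun n : ℕ => (n : ℤ)) := by
  ext z
  simp [Finset.bind_def]

theorem card_filter_bind_cast (s : Finset ℕ) (p : ℤ → Prop) [i1 : DecidablePred p]
    [i2 : DecidablePred (fun n : ℕ => p n)] :
    (((do let a ← s; pure (a : ℤ)) : Finset ℤ).filter p).card =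
      (s.filter (fun n : ℕ => p n)).card := by
  rw [bind_cast, Finset.filter_image, Finset.card_image_of_injective _ Nat.cast_injective]
  congr

theorem norm_lw_le {X : Type} (x : X × Bool) : (lw x).norm ≤ 1 := by
  unfold lw
  exact (FreeGroup.norm_mk_le).trans (by simp)

theorem norm_tt_le {X : Type} (x z : X × Bool) :
    (tt x z).norm ≤ if ¬ (z = x ∨ z = nv x) then 1 else 0 := by
  unfold tt
  by_cases h : z = x ∨ z = nv x
  · rw [if_pos h, if_neg (not_not.2 h)]
    simp
  · rw [if_neg h, if_pos h]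
    exact norm_lw_le z

theorem norm_sg_le {X : Type} (A : Set (X × Bool)) (x z z' : X × Bool) :
    ((sg A x z)⁻¹ * sg A x z').norm ≤ if ¬ (z ∈ A ↔ z' ∈ A) then 1 else 0 := by
  unfold sg
  by_cases h : z ∈ A <;> by_cases h' : z' ∈ A
  · simp [h, h']
  · rw [if_pos h, if_neg h', if_pos (by tauto), mul_one, FreeGroup.norm_inv_eq]
    exact norm_lw_le x
  · rw [if_neg h, if_pos h', if_pos (by tauto), inv_one, one_mul]
    exact norm_lw_le x
  · simp [h, h']

/-- the product of the factors of the image -/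
noncomputable def QQ {X : Type} (A : Set (X × Bool)) (x : X × Bool) (lt : ℤ → X × Bool) :
    ℕ → FreeGroup X
  | 0 => 1
  | n + 1 => QQ A x lt n * (tt x (lt n) * ((sg A x (nv (lt n)))⁻¹ * sg A x (lt (n + 1))))

theorem norm_QQ_le {X : Type} (A : Set (X × Bool)) (x : X × Bool) (lt : ℤ → X × Bool) (n : ℕ) :
    (QQ A x lt n).norm ≤
      ((Finset.range n).filter (fun i : ℕ => ¬ (lt i = x ∨ lt i = nv x))).card +
      ((Finset.range n).filter (fun i : ℕ => ¬ (nv (lt i) ∈ A ↔ lt (i + 1) ∈ A))).card := by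
  rw [Finset.card_filter, Finset.card_filter]
  induction n with
  | zero => simp [QQ]
  | succ n ih =>
    rw [Finset.sum_range_succ, Finset.sum_range_succ]
    have h1 : (QQ A x lt (n + 1)).norm ≤ (QQ A x lt n).norm + ((tt x (lt n)).norm +
        ((sg A x (nv (lt n)))⁻¹ * sg A x (lt (n + 1))).norm) := by
      show (QQ A x lt n * (tt x (lt n) * ((sg A x (nv (lt n)))⁻¹ * sg A x (lt (n + 1))))).norm ≤ _
      refine (FreeGroup.norm_mul_le _ _).trans ?_
      exact Nat.add_le_add_left (FreeGroup.norm_mul_le _ _) _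
    have h2 := norm_tt_le x (lt n)
    have h3 := norm_sg_le A x (nv (lt n)) (lt (n + 1))
    omega

theorem pf_WB (WA : T_WA) : T_WB := by
  intro X w L lt u hL A x hx hnx
  obtain ⟨φ, hφ⟩ := WA X A x hx hnx
  have key : ∀ n : ℕ, φ (u n) = sg A x (lt 0) * QQ A x lt n * (sg A x (lt n))⁻¹ := by
    intro n
    induction n with
    | zero => 
      simp only [Nat.cast_zero, QQ, mul_one]
      rw [hL.zero, map_one, mul_inv_cancel]
    | succ n ih =>
      have e : ((n + 1 : ℕ) : ℤ) = (n : ℤ) + 1 := by push_cast; ring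
      rw [e, hL.step, map_mul, ih, hφ]
      simp only [QQ]
      group
  refine ⟨φ, (sg A x (lt 0))⁻¹, ?_⟩
  have hw : w = u L := by
    have := hL.per 0
    rw [zero_add, hL.zero, mul_one] at this
    exact this.symm
  have hl : lt L = lt 0 := by
    have := hL.lper 0
    rwa [zero_add] at this
  have h1 : (sg A x (lt 0))⁻¹ * φ w * (sg A x (lt 0))⁻¹⁻¹ = QQ A x lt L := by
    rw [hw, key L, hl]
    group
  rw [h1, card_filter_bind_cast, card_filter_bind_cast]
  exact norm_QQ_le A x lt L

end Pool.Agent.H38.OR
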